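import Pool.Agent.Helper64.K4.PE
import Pool.Agent.Helper25.K4.Siz3

set_option autoImplicit false

/-!
# The energy of the unassigned part

The codegree form `eZ` of the unassigned part enters with opposite signs in the average of the
links of the unassigned vertices and in the density of the assigned part.
-/

open Finset

namespace KZ

open KF KC KT

section
variable {V : Type} {κ : V → Option (Fin 6)} {w : V → ℝ}

theorem wi_nn (hw : ∀ v, 0 ≤ w v) (v : V) : 0 ≤ wi w (zO κ) v := mul_nonneg (hw v) (zO_nn v)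

end

section
variable {V : Type} [Fintype V] {κ : V → Option (Fin 6)} {E : V → V → V → Bool} {w : V → ℝ}

/-- Codegree form of the unassigned part. -/
noncomputable def eZ (E : V → V → V → Bool) (w : V → ℝ) (κ : V → Option (Fin 6)) : ℝ :=
  tri E (wi w (zO κ)) (wi w (zO κ)) w

theorem eZ_nn (hw : ∀ v, 0 ≤ w v) : 0 ≤ eZ E w κ := tri_nonneg E (wi_nn hw) (wi_nn hw) hw

theorem eZ_le (ho : Opt E w) : eZ E w κ ≤ dens E w * unO w κ ^ 2 := cod_in_le ho (zO κ)

/-- There is an unassigned vertex whose link on the assigned part is large. -/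
theorem exists_outZ (ho : Opt E w) (hp : 0 < unO w κ) :
    ∃ v, κ v = none ∧ 0 < w v ∧ dens E w * unO w κ - 2 * eZ E w κ ≤
      unO w κ * ∑ x, ∑ y, wo w (zO κ) x * wo w (zO κ) y * b2r (E v x y) := by
  set g := unO w κ with hg
  have hgz : ∑ v, w v * zO κ v = g := rfl
  by_contra hcon
  push Not at hcon
  have h1 := tri_out ho (zO κ)
  rw [hgz] at h1
  have h0 := wi_nn (κ := κ) ho.wt.nn
  have h3 := tri_nonneg E h0 h0 h0
  have h2 : tri E (wi w (zO κ)) (wo w (zO κ)) (wo w (zO κ)) =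
      ∑ v, w v * zO κ v * ∑ x, ∑ y, wo w (zO κ) x * wo w (zO κ) y * b2r (E v x y) := by
    unfold KF.tri
    refine Finset.sum_congr rfl fun v _ => ?_
    rw [Finset.mul_sum]
    refine Finset.sum_congr rfl fun x _ => ?_
    rw [Finset.mul_sum]
    refine Finset.sum_congr rfl fun y _ => ?_
    unfold wi
    ring
  have hex : ∃ v, 0 < w v * zO κ v := by
    by_contra hc
    push Not at hc
    have : ∑ v, w v * zO κ v ≤ 0 := Finset.sum_nonpos fun v _ => hc v
    linarith
  have hlt : ∑ v, w v * zO κ v * (g * ∑ x, ∑ y, wo w (zO κ) x * wo w (zO κ) y * b2r (E v x y)) <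
      ∑ v, w v * zO κ v * (dens E w * g - 2 * eZ E w κ) := by
    have key : ∀ v, 0 < w v * zO κ v →
        g * ∑ x, ∑ y, wo w (zO κ) x * wo w (zO κ) y * b2r (E v x y) <
          dens E w * g - 2 * eZ E w κ := by
      intro v hv
      have hz : zO κ v ≠ 0 := fun h => by rw [h, mul_zero] at hv; exact lt_irrefl _ hv
      have hn : κ v = none := by
        unfold zO at hz
        cases h : κ v with
        | none => rfl
        | some j => rw [h] at hz; exact absurd (by simp) hz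
      have hw : 0 < w v := by
        rcases (ho.wt.nn v).eq_or_lt with h | h
        · rw [← h, zero_mul] at hv
          exact absurd hv (lt_irrefl _)
        · exact h
      exact hcon v hn hw
    obtain ⟨u, hu⟩ := hex
    refine Finset.sum_lt_sum (fun v _ => ?_) ⟨u, Finset.mem_univ u, ?_⟩
    · have hn : 0 ≤ w v * zO κ v := mul_nonneg (ho.wt.nn v) (zO_nn v)
      rcases hn.eq_or_lt with h | h
      · rw [← h, zero_mul, zero_mul]
      · exact mul_le_mul_of_nonneg_left (key v h).le hn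
    · exact mul_lt_mul_of_pos_left (key u hu) hu
  rw [← Finset.sum_mul, hgz] at hlt
  have h4 : ∑ v, w v * zO κ v * (g * ∑ x, ∑ y, wo w (zO κ) x * wo w (zO κ) y * b2r (E v x y)) =
      g * tri E (wi w (zO κ)) (wo w (zO κ)) (wo w (zO κ)) := by
    rw [h2, Finset.mul_sum]
    exact Finset.sum_congr rfl fun v _ => by ring
  rw [h4, h1] at hlt
  have h5 : tri E (wi w (zO κ)) (wi w (zO κ)) w = eZ E w κ := rfl
  rw [h5] at hlt
  have h6 : 0 ≤ g * tri E (wi w (zO κ)) (wi w (zO κ)) (wi w (zO κ)) := mul_nonneg hp.le h3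
  nlinarith

/-- The part inside the unassigned set. -/
theorem eZZ_le (ho : Opt E w) :
    tri E (wi w (zO κ)) (wi w (zO κ)) (wi w (zO κ)) ≤ L * unO w κ ^ 3 := by
  rw [← dens_eq_tri]
  exact dens_le_L_hom ho.free (wi_nn ho.wt.nn)

/-- The density identity with the energy of the unassigned part. -/
theorem glob_eZ (ho : Opt E w) : dens E w * (1 - 3 * unO w κ) + 3 * eZ E w κ - L * unO w κ ^ 3 ≤
    BB (xsO w κ) - muO E w κ + beO E w κ + ∑ i, dens E (fun v => w v * icO κ i v) := by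
  rw [← glob_eqO, dens_out ho (zO κ)]
  have h1 := eZZ_le (κ := κ) ho
  have h2 : ∑ v, w v * zO κ v = unO w κ := rfl
  have h5 : tri E (wi w (zO κ)) (wi w (zO κ)) w = eZ E w κ := rfl
  rw [h2, h5]
  linarith

/-- The cubic form of the sizes. -/
theorem cub_one {t : Fin 6 → ℝ} {τ l : ℝ} (hl : 0 ≤ l) (h0 : ∑ i, t i = 0) (hτ : ∀ i, t i ≤ τ) :
    ∑ i, t i * KB.qq t i + l * ∑ i, t i ^ 3 ≤ (10 + l) * τ * ∑ i, t i ^ 2 := by
  have h := KS.cubic_le hl h0 hτ
  have e : KS.BB t = ∑ i, t i * KB.qq t i := by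
    unfold KS.BB KS.PO KB.qq
    refine Finset.sum_congr rfl fun i _ => ?_
    rw [Finset.mul_sum, Finset.mul_sum]
    refine Finset.sum_congr rfl fun j _ => ?_
    rw [Finset.mul_sum, Finset.mul_sum]
    exact Finset.sum_congr rfl fun k _ => by ring
  rw [e] at h
  exact h

/-- The main inequality near equal parts, with the energy of the unassigned part. -/
theorem postZ (ho : Opt E w) {θ τ : ℝ} (hθ : L - θ ≤ dens E w) (hθ0 : 0 ≤ θ)
    (hL : L ≤ 29 / 100) (hg : unO w κ ≤ 1 / 100) (hτ0 : 0 ≤ τ) (ht : ∀ i, tO w κ i ≤ τ) :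
    35 / 36 * (1 - 3 * unO w κ) * (L - 2 / 7) + (21 / 25 - 103 / 10 * τ) * ∑ i, tO w κ i ^ 2 +
      ∑ i, dfO E w κ i + muO E w κ + 3 * eZ E w κ ≤ beO E w κ + 43 / 50 * unO w κ ^ 2 + θ := by
  have hw := ho.wt
  set g := unO w κ with hgdef
  have g0 : 0 ≤ g := unO_nn hw.nn
  have h1 := glob_eZ (κ := κ) ho
  have h2 : ∑ i, dens E (fun v => w v * icO κ i v) =
      L * ∑ i, xsO w κ i ^ 3 - ∑ i, dfO E w κ i := by
    unfold dfO
    rw [sum_sub_distrib, mul_sum]
    ring
  rw [h2, BB_tO hw, cub_tO hw, ← hgdef] at h1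
  have hL0 := L_nonneg
  have h3 := cub_one (l := L) hL0 (sum_tO hw) ht
  set S := ∑ i, tO w κ i ^ 2 with hS
  have hS0 : 0 ≤ S := sum_nonneg fun i _ => sq_nonneg _
  set D := ∑ i, dfO E w κ i with hD
  set C1 := ∑ i, tO w κ i * KB.qq (tO w κ) i with hC1
  set C2 := ∑ i, tO w κ i ^ 3 with hC2
  have h7 : (L - θ) * (1 - 3 * g) ≤ dens E w * (1 - 3 * g) :=
    mul_le_mul_of_nonneg_right hθ (by linarith)
  have h8 : 0 ≤ θ * g := mul_nonneg hθ0 g0
  -- quadratic part
  have c1 : (21 / 25 - 103 / 10 * τ) * S ≤ (1 - g) * S - L * ((1 - g) * S / 2) -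
      (10 + L) * τ * S := by
    have c2 : L * τ ≤ 29 / 100 * τ := mul_le_mul_of_nonneg_right hL hτ0
    have c3 : L * (1 - g) ≤ 29 / 100 * (1 - g) := mul_le_mul_of_nonneg_right hL (by linarith)
    have c4 : 21 / 25 - 103 / 10 * τ ≤ (1 - g) - L * ((1 - g) / 2) - (10 + L) * τ := by
      linarith
    have c5 := mul_le_mul_of_nonneg_right c4 hS0
    linarith
  -- constant part
  have g2 : 0 ≤ g ^ 2 := sq_nonneg g
  have g3 : 0 ≤ g ^ 3 := by positivity
  have h11 : (10 + L) / 36 * (3 * g ^ 2) ≤ 43 / 50 * g ^ 2 - 1 / 500 * g ^ 2 := by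
    have : L * g ^ 2 ≤ 29 / 100 * g ^ 2 := mul_le_mul_of_nonneg_right hL g2
    linarith
  have h12 : L * g ^ 3 - (10 + L) / 36 * g ^ 3 ≤ 1 / 500 * g ^ 2 := by
    have k1 : L * g ^ 3 ≤ 29 / 100 * g ^ 3 := mul_le_mul_of_nonneg_right hL g3
    have k2 : 0 ≤ L * g ^ 3 := mul_nonneg hL0 g3
    have k3 : g ^ 3 ≤ 1 / 100 * g ^ 2 := by
      have : g * g ^ 2 ≤ 1 / 100 * g ^ 2 := mul_le_mul_of_nonneg_right hg g2
      nlinarith
    linarith
  have e1 : 10 / 36 * (1 - g) ^ 3 - (1 - g) * S + C1 - muO E w κ + beO E w κ +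
      (L * ((1 - g) ^ 3 / 36 + (1 - g) * S / 2 + C2) - D) =
      (10 + L) / 36 * (1 - 3 * g) + (10 + L) / 36 * (3 * g ^ 2) - (10 + L) / 36 * g ^ 3 -
        ((1 - g) * S - L * ((1 - g) * S / 2)) + (C1 + L * C2) -
        muO E w κ + beO E w κ - D := by ring
  rw [e1] at h1
  have e2 : 35 / 36 * (1 - 3 * g) * (L - 2 / 7) = L * (1 - 3 * g) -
      (10 + L) / 36 * (1 - 3 * g) := by
    ring
  have e3 : (L - θ) * (1 - 3 * g) = L * (1 - 3 * g) - θ + 3 * (θ * g) := by ring
  rw [e2]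
  rw [e3] at h7
  linarith

end

end KZ
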